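import Pool.Agent.N496.CV.All
import Pool.Agent.N496.CV.L2Pf

/-!
# The conjecture of Davis and Okun for all the covers of closed aspherical manifolds from subdivided flag spheres

Let the flag complex of the graph `H` be a homology manifold with the homology of the sphere of dimension `n - 1`, both
over the reals and over the field with two elements (for example a flag triangulation of the sphere of dimension
`n - 1`), `n = 2 d` or `n = 2 d + 1`, `1 ≤ d`. Let `B` be a set of vertices such that the full subcomplex spanned by `B`
is properly coloured by `d + 1` colours (for example `B` empty). We show that there is an iterated edge subdivision `S`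
of `H` (`Sub H S`), in which the full subcomplex spanned by `B` is not changed and which is a homology sphere again,
such that for **every** subgroup `K` of the kernel `Γ` of `W S → (ℤ/2)^m`, of finite or infinite index, finitely
generated or not, the `L²`-Betti number `b_k(K)` (Lueck's dimension of `Tor_k^{ℤ[K]}(N(K), ℤ)`, `HasL2Betti`) is zero
for all `k > n / 2`.

`W S` is the right-angled Coxeter group of `S`; it acts on its Davis complex `Σ`, which is contractible, and is an
`n`-manifold if the flag complex of `S` is a (PL) triangulation of the `(n-1)`-sphere. `Γ` is torsion free of finite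
index, `M = Σ / Γ` is a closed aspherical `n`-manifold, and the manifolds `Σ / K`, `K ≤ Γ`, are all the connected covers
of `M`.
-/

set_option autoImplicit false

namespace Pool.Agent.Results.MP_4f4d9f_gt.AllCovers

open Pool.Agent.W907.SG Pool.Agent.W461.SGN Pool.Agent.N496.LT Pool.Agent.N496.CV
open Pool.Agent.TH652.Above (HSph)
open Pool.Agent.N504.RS.Two (HSph2)

/-- Let the flag complex of `H` be a homology manifold with the homology of the `(n-1)`-sphere over the reals and over
the field with two elements, `n = 2 d` or `n = 2 d + 1`, and let the full subcomplex spanned by the set `B` of vertices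
be properly coloured by `d + 1` colours. Then there is an iterated edge subdivision `S` of `H`, again a homology sphere
in both senses, which induces on `B` the same graph as `H`, such that the kernel `Γ` of `W S → (ℤ/2)^m` is torsion free
of finite index in the right-angled Coxeter group `W S` and for every subgroup `K` of `Γ`, of arbitrary index, all the
`L²`-Betti numbers of `K` above the middle dimension `n / 2` vanish. -/
theorem result : ∀ (d n N : ℕ) (H : SimpleGraph (Fin N)), 1 ≤ d → (n = 2 * d ∨ n = 2 * d + 1) →
    HSph n H → HSph2 n H →
    ∀ (B : Set (Fin N)) (c : Fin N → Fin (d + 1)), (∀ u ∈ B, ∀ v ∈ B, H.Adj u v → c u ≠ c v) →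
    ∃ (m : ℕ) (h : N ≤ m) (S : SimpleGraph (Fin m)), Sub H S ∧ HSph n S ∧ HSph2 n S ∧
      (∀ u ∈ B, ∀ v ∈ B, S.Adj (Fin.castLE h u) (Fin.castLE h v) ↔ H.Adj u v) ∧
      (th S).ker.FiniteIndex ∧ (∀ g ∈ (th S).ker, ∀ j : ℕ, 0 < j → g ^ j = 1 → g = 1) ∧
      ∀ K : Subgroup (W S), K ≤ (th S).ker → ∀ k : ℕ, n < 2 * k → HasL2Betti K k 0 := by
  intro d n N H hd hn hS hS2 B c hc
  obtain ⟨m, h, S, h1, h2, h3, h4, h5⟩ :=
    Pool.Agent.N496.CV.rel_all Pool.Agent.N496.CV.main H hd hn hS hS2 B c hc
  refine ⟨m, h, S, h1, h2, h3, h4, inferInstance, fun g hg j hj hgj => Pool.Agent.N496.CV.tf' (Fin m) S g hg j hj hgj,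
    fun K hK k hk => ?_⟩
  have h6 := hasL2Betti K k
  rw [h5 K hK k hk] at h6
  exact h6

end Pool.Agent.Results.MP_4f4d9f_gt.AllCovers
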