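import Pool.Agent.N504.RS.ClassC

/-!
# `ℓ²`-homology above the middle dimension: nerves built from coloured subdivisions, possibly infinite

Let `G` be a graph, possibly with infinitely many vertices, all of whose finite full subgraphs are in the class `CR n`.
If the flag complex of `G` is piecewise linearly embedded in the `(n-1)`-sphere (for infinite `G`: locally finite and
closed in `ℝ^(n-1)`), then the torsion-free subgroups of the right-angled Coxeter group `W G` are the fundamental
groups of aspherical `n`-manifolds, covered by a thickening of the Davis complex; if `G` is moreover finitely
colourable then there are such subgroups of finite index, and they are not finitely generated if `G` is infinite. The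
group `W G` is the directed union of its special subgroups `W (G.induce A)`, `A` finite, whose `ℓ²`-homology is shown
to vanish above the degree `n / 2`.

The class `CR n` contains the class `BR n` of the earlier result `BalancedFull` and all the subdivisions `cs X col` of
simplicial complexes `X` embedded in the sphere of dimension `2 d`, for small colourings of the vertices of `X` (for
example the barycentric subdivisions of all the complexes in this sphere), and is closed under the same operations
(full subcomplexes, vertex splittings, joins, suspensions, gluings, ...).
-/

set_option autoImplicit false

namespace Pool.Agent.Results.MP_4f4d9f_gt.ColouredClosure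

open Pool.Agent.W907.SG Pool.Agent.Y132.SI Pool.Agent.R781.VS Pool.Agent.N504.RS.Cls

/-- Let `G` be a graph with an arbitrary set of vertices whose finite full subgraphs are in the class `CR n`, and let
`A` be a finite set of vertices. (1) There are no nonzero `ℓ²` harmonic `i`-chains on the Davis complex of the special
subgroup `W (G.induce A)` of `W G` for `i > n / 2`. (2) For each `ε > 0` there is a finite set `E` of nontrivial
elements of `W (G.induce A)` such that for every subgroup `H` of finite index which contains no conjugate of an
element of `E`, and for all `i > n / 2`, the `i`-th real Betti number of `H` is at most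
`ε [W (G.induce A) : H]`. -/
theorem result : ∀ (n : ℕ) (V : Type) (G : SimpleGraph V), (∀ A : Set V, A.Finite → CR n (G.induce A)) →
    ∀ (A : Set V) [Fintype A] [LinearOrder A],
    (∀ i : ℕ, n < 2 * i → L2Van (G.induce A) i) ∧
    ∀ ε : ℝ, 0 < ε → ∃ E : Finset (W (G.induce A)), (1 : W (G.induce A)) ∉ E ∧
      ∀ H : Subgroup (W (G.induce A)), H.FiniteIndex → (∀ g ∈ E, ∀ x : W (G.induce A), x * g * x⁻¹ ∉ H) →
        ∀ i : ℕ, n < 2 * i → (Module.finrank ℝ (HInv (G.induce A) H i) : ℝ) ≤ ε * H.index := by
  intro n V G hG A _ _
  have h : ∀ i : ℕ, n < 2 * i → L2Van (G.induce A) i := fun i hi => above_CR (hG A (Set.toFinite A)) i hi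
  exact ⟨h, fun ε hε => growth_of_above _ n h ε hε⟩

end Pool.Agent.Results.MP_4f4d9f_gt.ColouredClosure
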