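import Pool.Agent.N13.PL.All

/-!
# `ℓ²`-homology above the middle dimension and the zero of the `f`-polynomial at `-1/2`

Let the flag complex `L` of the finite graph `G` be a homology sphere (and homology manifold) of dimension `n - 1`.
If `L` is a combinatorial sphere then the right-angled Coxeter group `W G` acts on a contractible `n`-manifold `Σ`,
and for every set `A` of vertices and every torsion-free subgroup `H` of finite index of the special subgroup
`W_A` (the right-angled Coxeter group of `G.induce A`) the quotient `M = Σ / H` is an aspherical `n`-manifold with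
`b_i^(2)(M) = [W_A : H] b_i^(2)(W_A)`; it is closed if `A = V` and noncompact otherwise (and homotopy equivalent to a
compact `n`-manifold with boundary). The problem for these manifolds is the vanishing of `b_i^(2)(W_A)` for
`i > n / 2`.

We use the following rule for the Euler characteristic: if, for all the proper faces `T` of `L`, the `ℓ²`-homology of
the full subcomplexes of the link of `T` vanishes above the middle `(n - |T|) / 2`, then a vertex `v` with
`χ(W_(lk v)) = 0` can be removed from the problem: its link is `ℓ²`-acyclic.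

The polynomial `fpoly G` is `f(X) = ∑ X^|S|`, the sum over the faces `S` of `L`, the empty face included. Its relation
to the `γ`-vector is `f(X) = ∑ γ_i X^i (1 + X)^i (1 + 2 X)^(n - 2 i)`. So the order of its zero at `-1/2` is
`n - 2 g`, where `g` is the degree of the `γ`-polynomial.
-/

set_option autoImplicit false

namespace Pool.Agent.Results.MP_4f4d9f_gt.DegreeOfGamma

open Pool.Agent.W907.SG Pool.Agent.W907.SM Pool.Agent.TH652.Above Pool.Agent.Y132.SI Pool.Agent.N13.EU
open Pool.Agent.N13.PL
open Polynomial (X C)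

/-- For each `ε > 0` there is a finite set `E` of nontrivial elements of `W G` such that for every subgroup `H` of
finite index which contains no conjugate of an element of `E`, and for all `i` with `I i`, the `i`-th real Betti
number of `H` (the dimension of the space of the `H`-invariant real harmonic `i`-chains of the Davis complex) is at
most `ε [W G : H]`. -/
def Slow {V : Type} [Fintype V] [LinearOrder V] (G : SimpleGraph V) (I : ℕ → Prop) : Prop :=
  ∀ ε : ℝ, 0 < ε → ∃ E : Finset (W G), (1 : W G) ∉ E ∧
    ∀ H : Subgroup (W G), H.FiniteIndex → (∀ g ∈ E, ∀ x : W G, x * g * x⁻¹ ∉ H) →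
      ∀ i : ℕ, I i → (Module.finrank ℝ (HInv G H i) : ℝ) ≤ ε * H.index

/-- **Result.** (1) Let the flag complex of `G` be a homology sphere of dimension `n - 1` with `Hered n G`: for every
face `T` (also the empty one) and every set `A` of vertices of its link `b_i^(2)(W_A) = 0` for `i > (n - |T|) / 2`.
Then for all `k` the polynomial `fpoly G` is divisible by `(1 + 2 X)^k` if and only if `b_i^(2)(W_A) = 0` for all the
sets `A` of vertices and all `i > (n - k) / 2`, and then the `i`-th Betti numbers of the subgroups of finite index of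
all the `W_A` are small for these `i`.
(2) So if `f(X) = ∑ γ_i X^i (1 + X)^i (1 + 2 X)^(n - 2 i)` with the last nonzero coefficient `γ_g` then `g` is the
largest degree `i` in which `b_i^(2)(W_A) ≠ 0` for some `A`.
(3) `Hered n G` holds if `n ≤ 4`, or if `G` is in the class `AM n`, or if the links of all faces are in the class
`ER`, or if for every face `T` with `n - |T| = 2 m + 1 ≥ 5` the set `U` of the vertices `v` of its link with
`χ(W_(lk (T ∪ v))) ≠ 0` has at most `3 m + 2` elements, or contains only faces with at most `m` vertices, or can be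
numbered such that each element has at most `3 m - 1` neighbours in `U` with smaller numbers, or spans a graph of the
class `ER (2 m + 1)`; and `Hered n G` is equivalent to `b_(m+1)^(2)(W_U) = 0` for all these `U`.
(4) For all graphs `G` of the class `ER n` and all sets `A` of vertices: `b_i^(2)(W_A) = 0` for `i > n / 2`, and the
Betti numbers of the subgroups of finite index of `W_A` are small in these degrees.
(5) The vanishing above the middle for all the `W_A` and for all flag homology spheres of dimension at most `N - 1`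
is equivalent to `b_(m+1)^(2)(W_U) = 0` for all the flag homology spheres of dimension `2 m`, `4 ≤ 2 m ≤ N - 1`, where
`U` is the set of the vertices `v` with `χ(W_(lk v)) ≠ 0`. -/
theorem result :
    (∀ (n : ℕ) (V : Type) [Fintype V] [LinearOrder V] (G : SimpleGraph V), HSph n G → Hered n G →
      (∀ k : ℕ, (1 + 2 * X : Polynomial ℚ) ^ k ∣ fpoly G ↔
        ∀ (A : Finset V) (i : ℕ), n < 2 * i + k → L2Van (G.induce (A : Set V)) i) ∧
      (∀ k : ℕ, (1 + 2 * X : Polynomial ℚ) ^ k ∣ fpoly G →
        ∀ A : Finset V, Slow (G.induce (A : Set V)) fun i => n < 2 * i + k) ∧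
      (∀ (g : ℕ) (γ : ℕ → ℚ), 2 * g ≤ n → γ g ≠ 0 →
        fpoly G = ∑ i ∈ Finset.range (g + 1), C (γ i) * (X ^ i * (1 + X) ^ i * (1 + 2 * X) ^ (n - 2 * i)) →
        (∀ (A : Finset V) (i : ℕ), g < i → L2Van (G.induce (A : Set V)) i) ∧
          ∃ A : Finset V, ¬ L2Van (G.induce (A : Set V)) g)) ∧
    (∀ (n : ℕ) (V : Type) [Fintype V] [LinearOrder V] (G : SimpleGraph V), AM n G → Hered n G) ∧
    (∀ (n : ℕ) (V : Type) [Fintype V] [LinearOrder V] (G : SimpleGraph V), HSph n G →
      (n ≤ 4 → Hered n G) ∧
      ((∀ T : Finset V, G.IsClique (T : Set V) → ER (n - T.card) (G.induce (lk G T))) → Hered n G) ∧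
      ((∀ (T : Finset V) (m : ℕ), G.IsClique (T : Set V) → T.card + (2 * m + 1) = n → 2 ≤ m →
        ∀ U : Finset V, (∀ v, v ∈ U ↔ v ∈ lk G T ∧ chiL G (insert v T) ≠ 0) →
          U.card ≤ 3 * m + 2 ∨ (∀ S : Finset V, G.IsClique (S : Set V) → S ⊆ U → S.card ≤ m) ∨
          (1 ≤ m ∧ ∃ r : V → ℕ, Function.Injective r ∧
            ∀ v ∈ U, {u | u ∈ U ∧ G.Adj v u ∧ r u < r v}.ncard + 1 ≤ 3 * m) ∨
          ER (2 * m + 1) (G.induce (U : Set V))) → Hered n G) ∧
      (Hered n G ↔ ∀ (T : Finset V) (m : ℕ), G.IsClique (T : Set V) → T.card + (2 * m + 1) = n → 2 ≤ m →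
        ∀ U : Finset V, (∀ v, v ∈ U ↔ v ∈ lk G T ∧ chiL G (insert v T) ≠ 0) →
          L2Van (G.induce (U : Set V)) (m + 1))) ∧
    (∀ (n : ℕ) (V : Type) (G : SimpleGraph V), ER n G → ∀ (A : Set V) [Fintype A] [LinearOrder A],
      (∀ i : ℕ, n < 2 * i → L2Van (G.induce A) i) ∧ Slow (G.induce A) fun i => n < 2 * i) ∧
    (∀ N : ℕ,
      (∀ n ≤ N, ∀ (V : Type) [Fintype V] [LinearOrder V] (G : SimpleGraph V), HSph n G →
        ∀ (A : Finset V) (i : ℕ), n < 2 * i → L2Van (G.induce (A : Set V)) i) ↔
      ∀ m : ℕ, 2 ≤ m → 2 * m + 1 ≤ N → ∀ (V : Type) [Fintype V] [LinearOrder V] (G : SimpleGraph V),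
        HSph (2 * m + 1) G → ∀ U : Finset V, (∀ v, v ∈ U ↔ chiL G {v} ≠ 0) →
          L2Van (G.induce (U : Set V)) (m + 1)) := by
  refine ⟨fun n V _ _ G hS hH => ⟨fun k => (zeros hS hH k).2, fun k hk A ε hε => growth_zeros hS hH k hk A ε hε,
    fun g γ hg hγ h => gam_deg hS hH hg γ hγ h⟩, fun n V _ _ G h => hered_AM h, fun n V _ _ G hS =>
    ⟨fun h => hered_four three h hS, hered_ER hS, fun hyp => (hered_iff2 three hS).2 fun T m hT hm hm' U hU =>
      suff m U (by
        rcases hyp T m hT hm hm' U hU with h | h | h | h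
        · exact Or.inl h
        · exact Or.inr (Or.inl h)
        · exact Or.inr (Or.inr (Or.inl h))
        · exact Or.inr (Or.inr (Or.inr (Or.inl h)))), hered_iff2 three hS⟩, ?_, ?_⟩
  · intro n V G hG A _ _
    have h : ∀ i : ℕ, n < 2 * i → L2Van (G.induce A) i := fun i hi =>
      (lv_univ _ _).1 ((Q_of_ER (ER.full G A hG)).2 Set.univ i hi) _ _
    exact ⟨h, fun ε hε => Pool.Agent.R703.MO.growth_set (G.induce A) (fun i => n < 2 * i) h ε hε⟩
  · intro N
    exact (aboveAll_iff N).trans (singer_iff2 three N)

end Pool.Agent.Results.MP_4f4d9f_gt.DegreeOfGamma
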